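import Pool.Agent.Helper18.SU.Goals2

/-! # SU2: packets TOPK and EXK -/

set_option autoImplicit false

namespace Pool.Agent.Helper63.SU

open Pool.Agent.Helper18.SU

lemma mem_tops {W : Type} [Fintype W] {par : W → W} {K : Finset W} {c : W} :
    c ∈ tops par K ↔ c ∉ K ∧ par c ∈ K := by
  simp [tops]

lemma mem_topd {W : Type} [Fintype W] {par : W → W} {sgn : W → Bool} {K : Finset W} {d : Bool}
    {c : W} : c ∈ topd par sgn K d ↔ c ∈ tops par K ∧ sgn c = d := by
  simp [topd]

lemma mem_topv {W : Type} [Fintype W] {par : W → W} {sgn : W → Bool} {K S : Finset W}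
    {c : W} : c ∈ topv par sgn K S ↔ c ∈ topd par sgn K true ∧ par c ∈ S := by
  simp [topv]

lemma mem_nb {V : Type} {A : V → V → Prop} {d : Bool} {X : Finset V} {x y : V} :
    y ∈ nb A d X x ↔ y ∈ X ∧ Arc A d x y := by
  simp [nb]

theorem TOPK (h1 : DSC_stmt) : TOPK_stmt := by
  intro W _ _ r par dep hR sgn K C hr hK hC
  obtain ⟨d1, d2, d3, d4, d5, d6, d7⟩ := h1 W r par dep hR
  obtain ⟨e1, e2, e3, e4, e5⟩ := d7 K hr hK
  have htops : tops par (K ∪ C.biUnion (dsc par)) = tops par K \ C := by
    ext c
    rw [mem_tops, Finset.mem_sdiff, mem_tops, Finset.mem_union, Finset.mem_union,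
      Finset.mem_biUnion, Finset.mem_biUnion]
    constructor
    · rintro ⟨h1, h2⟩
      push Not at h1
      obtain ⟨h3, h4⟩ := h1
      rcases h2 with h2 | ⟨c', hc', h2⟩
      · exact ⟨⟨h3, h2⟩, fun hc => h4 c hc (d1 c)⟩
      · exact absurd (d3 _ _ h2) (h4 c' hc')
    · rintro ⟨⟨h3, h4⟩, h5⟩
      refine ⟨?_, Or.inl h4⟩
      rintro (h | ⟨c', hc', h6⟩)
      · exact h3 h
      · have hne : c ≠ c' := fun h => h5 (h ▸ hc')
        exact Finset.disjoint_left.1 (e3 c (mem_tops.2 ⟨h3, h4⟩) c' (hC hc') hne) (d1 c) h6
  refine ⟨?_, htops, ?_, ?_⟩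
  · intro v hv
    rw [Finset.mem_union, Finset.mem_biUnion] at hv ⊢
    rcases hv with hv | ⟨c, hc, hv⟩
    · exact Or.inl (hK v hv)
    · by_cases hvc : v = c
      · subst hvc
        exact Or.inl (mem_tops.1 (hC hc)).2
      · exact Or.inr ⟨c, hc, d2 c v hv hvc⟩
  · intro d
    ext c
    rw [mem_topd, htops, Finset.mem_sdiff, Finset.mem_sdiff, mem_topd]
    tauto
  · rw [Finset.card_union_of_disjoint, Finset.card_biUnion]
    · intro c hc c' hc' hne
      exact e3 c (hC hc) c' (hC hc') hne
    · rw [Finset.disjoint_biUnion_right]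
      intro c hc
      exact (e2 c (hC hc)).2.symm

theorem EXK (h1 : STAR_stmt) (h2 : DSC_stmt) (_h3 : TOPK_stmt) : EXK_stmt := by
  intro W V _ _ _ _ A hT r par dep hR sgn K hr hK v hv C hC f₀ hf₀ F Z Q β M hF hZ hβ hsum hMZ
    hZQ hdeg
  obtain ⟨d1, d2, d3, d4, d5, d6, d7⟩ := h2 W r par dep hR
  obtain ⟨e1, e2, e3, e4, e5⟩ := d7 K hr hK
  have hCt : ∀ c ∈ C, c ∈ tops par K ∧ sgn c = true ∧ par c = v := by
    intro c hc
    have h3 := mem_topv.1 (hC hc)
    have h4 := mem_topd.1 h3.1
    exact ⟨h4.1, h4.2, Finset.mem_singleton.1 h3.2⟩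
  have key : ∀ C' : Finset W, C' ⊆ C →
      ∃ f' : W → V, Emb A r par sgn (K ∪ C'.biUnion (dsc par)) Finset.univ f' ∧
        (∀ w ∈ K, f' w = f₀ w) ∧
        ∀ c ∈ C', f' c ∈ Z \ F ∧ ∀ w ∈ dsc par c, w ≠ c → f' w ∈ Q \ F := by
    intro C'
    induction C' using Finset.induction_on with
    | empty =>
      intro _
      refine ⟨f₀, ?_, fun _ _ => rfl, fun c hc => absurd hc (Finset.notMem_empty c)⟩
      rw [Finset.biUnion_empty, Finset.union_empty]
      exact hf₀
    | insert c C' hcC' ih =>
      intro hsub
      have hcC : c ∈ C := hsub (Finset.mem_insert_self c C')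
      have hC'C : C' ⊆ C := (Finset.subset_insert c C').trans hsub
      obtain ⟨f', ⟨g1, g2, g3⟩, hf'K, hf'C⟩ := ih hC'C
      obtain ⟨hct, hcs, hcp⟩ := hCt c hcC
      set I : Finset V := (C'.biUnion (dsc par)).image f' with hI
      have hIc : I.card ≤ ∑ c' ∈ C', (dsc par c').card :=
        Finset.card_image_le.trans Finset.card_biUnion_le
      have hs1 : (dsc par c).card + ∑ c' ∈ C', (dsc par c').card ≤ M := by
        have h5 : ∑ c' ∈ insert c C', (dsc par c').card =
            (dsc par c).card + ∑ c' ∈ C', (dsc par c').card := Finset.sum_insert hcC'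
        have h6 : ∑ c' ∈ insert c C', (dsc par c').card ≤ ∑ c' ∈ C, (dsc par c').card :=
          Finset.sum_le_sum_of_subset hsub
        omega
      have hpos : 1 ≤ (dsc par c).card := Finset.card_pos.2 ⟨c, d1 c⟩
      have hβc := hβ c hcC
      obtain ⟨z, hz⟩ : ((Z \ F) \ I).Nonempty := by
        rw [← Finset.card_pos]
        have h5 := Finset.le_card_sdiff I (Z \ F)
        omega
      rw [Finset.mem_sdiff, Finset.mem_sdiff] at hz
      obtain ⟨⟨hzZ, hzF⟩, hzI⟩ := hz
      obtain ⟨q1, q2⟩ := hdeg z hzZ
      set T1 : Finset V := (nb A true Q z \ F) \ I with hT1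
      set T0 : Finset V := (nb A false Q z \ F) \ I with hT0
      have t1 : 4 * (dsc par c).card + C0 ≤ T1.card := by
        have h5 := Finset.le_card_sdiff I (nb A true Q z \ F)
        rw [← hT1] at h5
        omega
      have t0 : 4 * (dsc par c).card + C0 ≤ T0.card := by
        have h5 := Finset.le_card_sdiff I (nb A false Q z \ F)
        rw [← hT0] at h5
        omega
      obtain ⟨g, ⟨k1, k2, k3⟩, hgc, hgT, -⟩ := h1 W V A hT r par dep hR sgn (dsc par c) c (d1 c)
        (Finset.Subset.refl _) (fun w hw hwc => d2 c w hw hwc) z T1 T0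
        (fun y hy => by
          rw [hT1, Finset.mem_sdiff, Finset.mem_sdiff, mem_nb] at hy
          exact hy.1.1.2)
        (fun y hy => by
          rw [hT0, Finset.mem_sdiff, Finset.mem_sdiff, mem_nb] at hy
          exact hy.1.1.2) t1 t0
      have hTQ : ∀ y ∈ T1 ∪ T0, y ∈ Q ∧ y ∉ F ∧ y ∉ I := by
        intro y hy
        rw [Finset.mem_union, hT1, hT0, Finset.mem_sdiff, Finset.mem_sdiff, mem_nb,
          Finset.mem_sdiff, Finset.mem_sdiff, mem_nb] at hy
        tauto
      have hg : ∀ w ∈ dsc par c, g w ∉ F ∧ g w ∉ I := by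
        intro w hw
        by_cases hwc : w = c
        · rw [hwc, hgc]
          exact ⟨hzF, hzI⟩
        · exact (hTQ _ (hgT w hw hwc)).2
      -- disjointness
      have hdK : ∀ w ∈ dsc par c, w ∉ K := fun w hw hw' =>
        Finset.disjoint_left.1 (e2 c hct).2 hw hw'
      have hdC : ∀ c' ∈ C', ∀ w ∈ dsc par c', w ∉ dsc par c := by
        intro c' hc' w hw hw'
        have hne : c' ≠ c := fun h => hcC' (h ▸ hc')
        exact Finset.disjoint_left.1 (e3 c' (hCt c' (hC'C hc')).1 c hct hne) hw hw'
      have hdK' : ∀ w ∈ K ∪ C'.biUnion (dsc par), w ∉ dsc par c := by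
        intro w hw hw'
        rw [Finset.mem_union, Finset.mem_biUnion] at hw
        rcases hw with hw | ⟨c', hc', hw⟩
        · exact hdK w hw' hw
        · exact hdC c' hc' w hw hw'
      have hfFI : ∀ w ∈ K ∪ C'.biUnion (dsc par), f' w ∈ F ∨ f' w ∈ I := by
        intro w hw
        rw [Finset.mem_union] at hw
        rcases hw with hw | hw
        · left
          rw [hf'K w hw]
          exact hF (Finset.mem_image_of_mem _ hw)
        · right
          exact Finset.mem_image_of_mem _ hw
      have hset : K ∪ (insert c C').biUnion (dsc par) =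
          (K ∪ C'.biUnion (dsc par)) ∪ dsc par c := by
        rw [Finset.biUnion_insert]
        ext w
        simp only [Finset.mem_union]
        tauto
      refine ⟨fun w => if w ∈ dsc par c then g w else f' w, ?_, ?_, ?_⟩
      · rw [hset]
        refine ⟨fun w _ => Finset.mem_univ _, ?_, ?_⟩
        · intro a ha b hb hab
          rw [Finset.mem_union] at ha hb
          by_cases hac : a ∈ dsc par c
          · by_cases hbc : b ∈ dsc par c
            · simp only [if_pos hac, if_pos hbc] at hab
              exact k2 a hac b hbc hab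
            · exfalso
              simp only [if_pos hac, if_neg hbc] at hab
              have h5 := hfFI b (hb.resolve_right hbc)
              have h6 := hg a hac
              rw [hab] at h6
              tauto
          · by_cases hbc : b ∈ dsc par c
            · exfalso
              simp only [if_neg hac, if_pos hbc] at hab
              have h5 := hfFI a (ha.resolve_right hac)
              have h6 := hg b hbc
              rw [← hab] at h6
              tauto
            · simp only [if_neg hac, if_neg hbc] at hab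
              exact g2 a (ha.resolve_right hac) b (hb.resolve_right hbc) hab
        · intro w hw hwr hpw
          rw [Finset.mem_union] at hw hpw
          by_cases hwc : w ∈ dsc par c
          · by_cases hwc' : w = c
            · subst hwc'
              have hpc : par w ∉ dsc par w := fun h => hdK _ h (by rw [hcp]; exact hv)
              simp only [if_pos hwc, if_neg hpc]
              rw [hcs, hgc, hcp, hf'K v hv]
              exact (mem_nb.1 (hZ hzZ)).2
            · have hpc : par w ∈ dsc par c := d2 c w hwc hwc'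
              simp only [if_pos hwc, if_pos hpc]
              exact k3 w hwc hwr hpc
          · have hpc : par w ∉ dsc par c := fun h => hwc (d3 _ _ h)
            simp only [if_neg hwc, if_neg hpc]
            exact g3 w (hw.resolve_right hwc) hwr (hpw.resolve_right hpc)
      · intro w hw
        have : w ∉ dsc par c := fun h => hdK w h hw
        simp only [if_neg this]
        exact hf'K w hw
      · intro c₁ hc₁
        rw [Finset.mem_insert] at hc₁
        rcases hc₁ with hc₁ | hc₁
        · subst hc₁
          refine ⟨?_, ?_⟩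
          · simp only [if_pos (d1 c₁)]
            rw [hgc, Finset.mem_sdiff]
            exact ⟨hzZ, hzF⟩
          · intro w hw hwc
            simp only [if_pos hw]
            have := hTQ _ (hgT w hw hwc)
            rw [Finset.mem_sdiff]
            exact ⟨this.1, this.2.1⟩
        · have h5 := hf'C c₁ hc₁
          refine ⟨?_, ?_⟩
          · simp only [if_neg (hdC c₁ hc₁ c₁ (d1 c₁))]
            exact h5.1
          · intro w hw hwc
            simp only [if_neg (hdC c₁ hc₁ w hw)]
            exact h5.2 w hw hwc
  exact key C (Finset.Subset.refl C)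

end Pool.Agent.Helper63.SU
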